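import Pool.Agent.Helper43.NPI.Defs

set_option autoImplicit false

namespace Pool.Agent.Helper43.NPI

open scoped ENNReal

variable {A B : Type}

/-- restriction of an l2 function along an injection -/
theorem memℓp_comp {ι : A → B} (hι : Function.Injective ι) (s : lp (fun _ : B => ℂ) 2) :
    Memℓp (fun a => s (ι a)) (E := fun _ : A => ℂ) 2 := by
  have h := lp.memℓp s
  rw [memℓp_gen_iff (by norm_num)] at h ⊢
  exact h.comp_injective hι

theorem memℓp_extend {ι : A → B} (hι : Function.Injective ι) (s : lp (fun _ : A => ℂ) 2) :
    Memℓp (Function.extend ι (fun a => s a) 0) (E := fun _ : B => ℂ) 2 := by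
  have h := lp.memℓp s
  rw [memℓp_gen_iff (by norm_num)] at h ⊢
  rw [← hι.summable_iff]
  · simpa [Function.comp_def, hι.extend_apply] using h
  · intro b hb
    have : ¬ ∃ a, ι a = b := hb
    rw [Function.extend_apply' _ _ _ this]
    simp

/-- extension by zero -/
noncomputable def extL {ι : A → B} (hι : Function.Injective ι) :
    lp (fun _ : A => ℂ) 2 →ₗᵢ[ℂ] lp (fun _ : B => ℂ) 2 :=
  LinearMap.isometryOfInner
    { toFun := fun s => ⟨Function.extend ι (fun a => s a) 0, memℓp_extend hι s⟩
      map_add' := by
        intro s t
        ext b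
        change Function.extend ι (fun a => (s + t) a) 0 b =
          Function.extend ι (fun a => s a) 0 b + Function.extend ι (fun a => t a) 0 b
        by_cases h : ∃ a, ι a = b
        · obtain ⟨a, rfl⟩ := h
          simp [hι.extend_apply]
        · simp [Function.extend_apply' _ _ _ h]
      map_smul' := by
        intro c s
        ext b
        by_cases h : ∃ a, ι a = b
        · obtain ⟨a, rfl⟩ := h
          simp [hι.extend_apply]
        · simp [Function.extend_apply' _ _ _ h] }
    (by
      intro s t
      rw [lp.inner_eq_tsum, lp.inner_eq_tsum]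
      rw [← hι.tsum_eq]
      · simp [hι.extend_apply]
      · intro b hb
        by_contra h
        apply hb
        have h' : ¬ ∃ a, ι a = b := h
        simp [Function.extend_apply' _ _ _ h'])

theorem extL_apply {ι : A → B} (hι : Function.Injective ι) (s : lp (fun _ : A => ℂ) 2) (a : A) :
    extL hι s (ι a) = s a := by
  change Function.extend ι (fun a => s a) 0 (ι a) = s a
  rw [hι.extend_apply]

theorem extL_apply' {ι : A → B} (hι : Function.Injective ι) (s : lp (fun _ : A => ℂ) 2) (b : B)
    (hb : b ∉ Set.range ι) : extL hι s b = 0 := by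
  change Function.extend ι (fun a => s a) 0 b = 0
  rw [Function.extend_apply' _ _ _ hb]
  rfl

open Classical in
theorem extL_single {ι : A → B} (hι : Function.Injective ι) (a : A) :
    extL hι (lp.single 2 a (1 : ℂ)) = lp.single 2 (ι a) (1 : ℂ) := by
  ext b
  by_cases h : ∃ a', ι a' = b
  · obtain ⟨a', rfl⟩ := h
    rw [extL_apply]
    simp only [lp.coeFn_single]
    by_cases haa : a' = a
    · subst haa; simp
    · have : ι a' ≠ ι a := fun h => haa (hι h)
      simp [haa, this]
  · rw [extL_apply' hι _ _ h]
    have : b ≠ ι a := fun h' => h ⟨a, h'.symm⟩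
    simp [this]

variable (Z : (B → ℂ) → Prop) (Z' : (A → ℂ) → Prop)

variable {Z Z'}

theorem mem_closedSpan {c : lp (fun _ : B => ℂ) 2} (hc : Z (fun b => c b)) : c ∈ closedSpan {c | Z (fun b => c b)} :=
  Submodule.le_topologicalClosure _ (Submodule.subset_span hc)

theorem closedSpan_le {N : Submodule ℂ (lp (fun _ : B => ℂ) 2)} (hN : IsClosed (N : Set (lp (fun _ : B => ℂ) 2)))
    (h : ∀ c : lp (fun _ : B => ℂ) 2, Z (fun b => c b) → c ∈ N) : closedSpan {c | Z (fun b => c b)} ≤ N :=
  Submodule.topologicalClosure_minimal _ (Submodule.span_le.2 h) hN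

open Classical in
theorem proj_transfer {ι : A → B} (hι : Function.Injective ι)
    (H1 : ∀ g, Z g → (∀ b, b ∉ Set.range ι → g b = 0) ∧ Z' (fun a => g (ι a)))
    (H2 : ∀ g, (∀ b, b ∉ Set.range ι → g b = 0) → Z' (fun a => g (ι a)) → Z g) (a : A) :
    inner ℂ (lp.single 2 (ι a) (1 : ℂ)) ((closedSpan {c | Z (fun b => c b)}).starProjection (lp.single 2 (ι a) (1 : ℂ))) =
    inner ℂ (lp.single 2 a (1 : ℂ)) ((closedSpan {c | Z' (fun b => c b)}).starProjection (lp.single 2 a (1 : ℂ))) := by
  set δ : lp (fun _ : A => ℂ) 2 := lp.single 2 a (1 : ℂ) with hδ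
  have key : (closedSpan {c | Z (fun b => c b)}).starProjection (extL hι δ) =
      extL hι ((closedSpan {c | Z' (fun b => c b)}).starProjection δ) := by
    apply Submodule.eq_starProjection_of_mem_of_inner_eq_zero
    · have : closedSpan {c | Z' (fun b => c b)} ≤ (closedSpan {c | Z (fun b => c b)}).comap (extL hι).toLinearMap := by
        apply closedSpan_le
        · exact (Submodule.isClosed_topologicalClosure _).preimage (extL hι).continuous
        · intro c hc
          apply mem_closedSpan
          apply H2
          · intro b hb
            exact extL_apply' hι c b hb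
          · have : (fun a => extL hι c (ι a)) = fun a => c a := by
              funext a
              exact extL_apply hι c a
            change Z' (fun a => extL hι c (ι a))
            rw [this]
            exact hc
      exact this (Submodule.starProjection_apply_mem _ _)
    · have : closedSpan {c | Z (fun b => c b)} ≤ (ℂ ∙ (extL hι δ - extL hι ((closedSpan {c | Z' (fun b => c b)}).starProjection δ)))ᗮ := by
        apply closedSpan_le
        · exact Submodule.isClosed_orthogonal _
        · intro c hc
          rw [Submodule.mem_orthogonal_singleton_iff_inner_right]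
          obtain ⟨h0, hZ'⟩ := H1 _ hc
          let c' : lp (fun _ : A => ℂ) 2 := ⟨fun a => c (ι a), memℓp_comp hι c⟩
          have hc' : extL hι c' = c := by
            ext b
            by_cases h : b ∈ Set.range ι
            · obtain ⟨a, rfl⟩ := h
              rw [extL_apply]
            · rw [extL_apply' hι _ _ h, h0 b h]
          rw [← hc', ← map_sub, LinearIsometry.inner_map_map]
          apply Submodule.starProjection_inner_eq_zero
          exact mem_closedSpan hZ'
      intro w hw
      have := this hw
      rwa [Submodule.mem_orthogonal_singleton_iff_inner_right] at this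
  rw [← extL_single hι, key, LinearIsometry.inner_map_map]

open Classical in
theorem proj_zero {b : B} (h : ∀ g, Z g → g b = 0) :
    inner ℂ (lp.single 2 b (1 : ℂ)) ((closedSpan {c | Z (fun b => c b)}).starProjection (lp.single 2 b (1 : ℂ))) = 0 := by
  have : (closedSpan {c | Z (fun b => c b)}).starProjection (lp.single 2 b (1 : ℂ)) = 0 := by
    rw [Submodule.starProjection_apply_eq_zero_iff]
    have : closedSpan {c | Z (fun b => c b)} ≤ (ℂ ∙ (lp.single 2 b (1 : ℂ) : lp (fun _ : B => ℂ) 2))ᗮ := by
      apply closedSpan_le
      · exact Submodule.isClosed_orthogonal _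
      · intro c hc
        rw [Submodule.mem_orthogonal_singleton_iff_inner_right, lp.inner_single_left]
        simp [h _ hc]
    rw [Submodule.mem_orthogonal]
    intro u hu
    have h' := this hu
    rw [Submodule.mem_orthogonal_singleton_iff_inner_right] at h'
    rw [← inner_conj_symm, h', map_zero]
  rw [this, inner_zero_right]

end Pool.Agent.Helper43.NPI
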