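import Pool.Agent.Helper43.NPI.Wedge
import Pool.Agent.Helper43.NPI.Hilbert

set_option autoImplicit false

namespace Pool.Agent.Helper43.NPI

namespace TwoComplex

variable {X : TwoComplex}

/-! ### deck transformations -/

/-- the inverse of a closed path -/
def loopInv (g : X.Loop) : X.Loop := ⟨revWord X.rev g.1, isPath_revWord g.2⟩

/-- the action of a closed path at the base vertex on path classes -/
def deck (g : X.Loop) (γ : X.PathClass) : X.PathClass :=
  Quot.map (fun p => g.1 ++ p) (fun _ _ h => Homotopic.append_left h g.2) γ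

@[simp] theorem deck_mk (g : X.Loop) (p : List X.E) :
    deck g (PathClass.mk p) = PathClass.mk (g.1 ++ p) := rfl

theorem deck_isTo (g : X.Loop) (γ : X.PathClass) (v : X.V) :
    (deck g γ).IsTo v ↔ γ.IsTo v := by
  induction γ using PathClass.ind with
  | h p =>
    rw [deck_mk, PathClass.isTo_mk, PathClass.isTo_mk]
    exact isPath_append_of_left g.2

theorem deck_append (g : X.Loop) (γ : X.PathClass)
    (w : List X.E) : (deck g γ).append w = deck g (γ.append w) := by
  induction γ using PathClass.ind with
  | h p => simp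

theorem deck_inv_deck (g : X.Loop) (γ : X.PathClass) :
    deck (loopInv g) (deck g γ) = γ := by
  induction γ using PathClass.ind with
  | h p =>
    simp only [deck_mk, PathClass.mk_eq_mk, loopInv]
    simpa using homotopic_revWord_append (p := []) (isPath_nil.2 rfl) g.1 g.2 p

theorem deck_deck_inv (g : X.Loop) (γ : X.PathClass) :
    deck g (deck (loopInv g) γ) = γ := by
  induction γ using PathClass.ind with
  | h p =>
    simp only [deck_mk, PathClass.mk_eq_mk, loopInv]
    simpa using homotopic_append_revWord (p := []) (isPath_nil.2 rfl) g.1 g.2 p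

/-- the action on 2-cells of the universal cover -/
def deckF (g : X.Loop) (q : X.CoverFace) : X.CoverFace :=
  ⟨deck g q.cls, q.face, (deck_isTo _ _ _).2 q.isTo⟩

/-- the action on edges of the universal cover -/
def deckE (g : X.Loop) (q : X.CoverEdge) : X.CoverEdge :=
  ⟨deck g q.cls, q.edge, (deck_isTo _ _ _).2 q.isTo⟩

theorem deckF_bijective (g : X.Loop) : Function.Bijective (deckF g) := by
  constructor
  · apply Function.LeftInverse.injective (g := deckF (loopInv g))
    rintro ⟨γ, f, h⟩
    exact CoverFace.ext (deck_inv_deck g γ) rfl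
  · rintro ⟨γ, f, h⟩
    exact ⟨deckF (loopInv g) ⟨γ, f, h⟩, CoverFace.ext (deck_deck_inv g γ) rfl⟩

theorem deckE_bijective (g : X.Loop) : Function.Bijective (deckE g) := by
  constructor
  · apply Function.LeftInverse.injective (g := deckE (loopInv g))
    rintro ⟨γ, f, h⟩
    exact CoverEdge.ext (deck_inv_deck g γ) rfl
  · rintro ⟨γ, f, h⟩
    exact ⟨deckE (loopInv g) ⟨γ, f, h⟩, CoverEdge.ext (deck_deck_inv g γ) rfl⟩

theorem coverBd_deckF (g : X.Loop) (q : X.CoverFace) (i : ℤ) :
    coverBd (deckF g q) i = deckE g (coverBd q i) :=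
  CoverEdge.ext (deck_append _ _ _) rfl

theorem coverRev_deckE (g : X.Loop) (e : X.CoverEdge) :
    coverRev (deckE g e) = deckE g (coverRev e) :=
  CoverEdge.ext (deck_append _ _ _) rfl

theorem incidence_deck (g : X.Loop) (q : X.CoverFace) (e : X.CoverEdge) :
    X.universalCover.incidence (deckF g q) (deckE g e) = X.universalCover.incidence q e := by
  classical
  rw [incidence_cover, incidence_cover]
  refine Finset.sum_congr rfl fun i _ => ?_
  have h1 : (coverBd (deckF g q) i = deckE g e) ↔ (coverBd q i = e) := by
    rw [coverBd_deckF, (deckE_bijective g).1.eq_iff]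
  have h2 : (coverBd (deckF g q) i = coverRev (deckE g e)) ↔ (coverBd q i = coverRev e) := by
    rw [coverBd_deckF, coverRev_deckE, (deckE_bijective g).1.eq_iff]
  exact congrArg₂ (· - ·) (if_congr h1 rfl rfl) (if_congr h2 rfl rfl)

theorem boundary_deck {R : Type} [AddCommGroup R] (c : X.CoverFace → R) (g : X.Loop)
    (e : X.CoverEdge) :
    X.universalCover.boundary (fun q => c (deckF g q)) e =
      X.universalCover.boundary c (deckE g e) := by
  refine finsum_eq_of_bijective (deckF g) (deckF_bijective g) ?_
  intro q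
  exact congrArg (· • c (deckF g q)) (incidence_deck g q e).symm

theorem cycle_deck {R : Type} [AddCommGroup R] (c : X.CoverFace → R) (g : X.Loop) :
    (∀ e, X.universalCover.boundary (fun q => c (deckF g q)) e = 0) ↔
      ∀ e, X.universalCover.boundary c e = 0 := by
  constructor
  · intro h e
    obtain ⟨e, rfl⟩ := (deckE_bijective g).2 e
    exact (boundary_deck c g e).symm.trans (h e)
  · intro h e
    exact (boundary_deck c g e).trans (h _)

theorem exists_deck {γ γ' : X.PathClass} {v : X.V} (h : γ.IsTo v) (h' : γ'.IsTo v) :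
    ∃ g, deck g γ = γ' := by
  obtain ⟨p, rfl, hp⟩ := h
  obtain ⟨p', rfl, hp'⟩ := h'
  refine ⟨⟨p' ++ revWord X.rev p, isPath_append hp' (isPath_revWord hp)⟩, ?_⟩
  simp only [deck_mk, PathClass.mk_eq_mk]
  simpa using homotopic_revWord_append hp' p hp []

/-- `Z` in terms of functions -/
def isCycle (X : TwoComplex) (g : X.CoverFace → ℂ) : Prop :=
  ∀ e, X.universalCover.boundary g e = 0

/-- the contribution of a 2-cell of the universal cover -/
noncomputable def contrib (X : TwoComplex) (q : X.CoverFace) : ℝ :=
  projectionForm X.l2Cycles (L2.delta q)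

open Classical in
theorem contrib_eq (q : X.CoverFace) : X.contrib q =
    (inner ℂ (lp.single 2 q (1 : ℂ))
      ((closedSpan {c | X.isCycle (fun b => c b)}).starProjection (lp.single 2 q (1 : ℂ)))).re :=
  rfl

theorem contrib_deck (g : X.Loop) (q : X.CoverFace) :
    X.contrib (deckF g q) = X.contrib q := by
  rw [contrib_eq, contrib_eq]
  refine congrArg Complex.re ?_
  apply proj_transfer (deckF_bijective g).1
  · intro c hc
    refine ⟨fun b hb => (hb ((deckF_bijective g).2 b)).elim, ?_⟩
    exact (cycle_deck c g).2 hc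
  · intro c _ hc
    exact (cycle_deck c g).1 hc

theorem contrib_congr (q q' : X.CoverFace) (h : q.face = q'.face) :
    X.contrib q = X.contrib q' := by
  obtain ⟨γ, f, h1⟩ := q
  obtain ⟨γ', f', h2⟩ := q'
  have h' : f = f' := h
  subst h'
  obtain ⟨g, hg⟩ := exists_deck h1 h2
  refine (contrib_deck g _).symm.trans ?_
  exact congrArg X.contrib (CoverFace.ext hg rfl)

variable {K : TwoComplex}

theorem contrib_incF (q : K.CoverFace) : K.wedge.contrib (incF q) = K.contrib q := by
  rw [contrib_eq, contrib_eq]
  refine congrArg Complex.re ?_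
  apply proj_transfer incF_injective
  · intro g hg
    have h1 := cycle_newF g hg
    refine ⟨?_, ?_⟩
    · intro b hb
      rcases coverF_cases b with ⟨q', rfl⟩ | ⟨b, γ, h, rfl⟩
      · exact (hb ⟨q', rfl⟩).elim
      · exact h1 b γ h
    · exact (cycle_iff g h1).1 hg
  · intro g hg hc
    have h1 : ∀ b γ h, g (newF b γ h) = 0 := by
      intro b γ h
      apply hg
      rintro ⟨q, hq⟩
      exact incF_ne_newF q b γ h hq
    exact (cycle_iff g h1).2 hc

theorem contrib_newF (b : Bool) (γ : K.wedge.PathClass) (h : γ.IsTo K.base) :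
    K.wedge.contrib (newF b γ h) = 0 := by
  rw [contrib_eq, proj_zero, Complex.zero_re]
  intro g hg
  exact cycle_newF g hg b γ h

theorem wedge_l2Betti (K : TwoComplex) : K.wedge.l2Betti = K.l2Betti := by
  change (∑ᶠ f : K.wedge.F, K.wedge.contrib (K.wedge.lift f)) = ∑ᶠ f : K.F, K.contrib (K.lift f)
  have h1 : ∀ b, K.wedge.contrib (K.wedge.lift (fA b)) = 0 := by
    intro b
    rcases coverF_cases (K.wedge.lift (fA b)) with ⟨q, hq⟩ | ⟨b', γ, h, hq⟩
    · have := congrArg CoverFace.face hq
      exact (fK_ne_fA _ _ this.symm).elim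
    · rw [hq, contrib_newF]
  have h2 : ∀ f, K.wedge.contrib (K.wedge.lift (fK f)) = K.contrib (K.lift f) := by
    intro f
    rcases coverF_cases (K.wedge.lift (fK f)) with ⟨q, hq⟩ | ⟨b', γ, h, hq⟩
    · rw [hq, contrib_incF]
      apply contrib_congr
      have := congrArg CoverFace.face hq
      exact (fK_injective this).symm
    · have := congrArg CoverFace.face hq
      exact (fK_ne_fA _ _ this).elim
  have h3 : Function.support (fun f : K.wedge.F => K.wedge.contrib (K.wedge.lift f)) ⊆
      Set.range (fK (K := K)) := by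
    intro f hf
    rcases face_cases f with ⟨f, rfl⟩ | ⟨b, rfl⟩
    · exact ⟨f, rfl⟩
    · exfalso
      apply hf
      exact h1 b
  rw [← finsum_mem_univ, ← finsum_mem_inter_support, Set.univ_inter,
    ← Set.inter_eq_right.2 h3, finsum_mem_inter_support, finsum_mem_range fK_injective]
  apply finsum_congr
  intro f
  rw [h2]

end TwoComplex

end Pool.Agent.Helper43.NPI
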