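import Mathlib

/-!
# Combinatorial two-complexes, immersions, the universal cover and the second L2-Betti number

Definitions used for the problem MP_3e52c6_al.
-/

set_option autoImplicit false

namespace Pool.Agent.Helper43.NPI

/-- A combinatorial 2-dimensional CW complex, not necessarily connected. `E` is the type of
*oriented* edges; a 2-cell `f` is a polygon with `len f ≥ 1` sides attached along the closed edge
path `bd f 0, bd f 1, …, bd f (len f - 1)`. The sides are numbered by the integers modulo
`len f`, i.e. `bd f` is a periodic function on the integers. -/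
structure CellComplex where
  /-- vertices -/
  V : Type
  /-- oriented edges -/
  E : Type
  /-- 2-cells -/
  F : Type
  /-- initial vertex of an oriented edge -/
  src : E → V
  /-- the same edge with the opposite orientation -/
  rev : E → E
  rev_rev : ∀ e, rev (rev e) = e
  rev_ne : ∀ e, rev e ≠ e
  /-- number of sides of a 2-cell -/
  len : F → ℕ
  len_pos : ∀ f, 0 < len f
  /-- the attaching closed edge path of a 2-cell -/
  bd : F → ℤ → E
  bd_periodic : ∀ f i, bd f (i + len f) = bd f i
  bd_closed : ∀ f i, src (rev (bd f i)) = src (bd f (i + 1))

/-- `U.IsPath u p v`: the list `p` of oriented edges is an edge path from `u` to `v`. -/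
inductive CellComplex.IsPath (U : CellComplex) : U.V → List U.E → U.V → Prop
  | nil (u : U.V) : U.IsPath u [] u
  | cons (e : U.E) (p : List U.E) (v : U.V) :
      U.IsPath (U.src (U.rev e)) p v → U.IsPath (U.src e) (e :: p) v

/-- A connected combinatorial two-complex, with a chosen base vertex. -/
structure TwoComplex extends CellComplex where
  /-- base vertex -/
  base : V
  connected : ∀ v, ∃ p, toCellComplex.IsPath base p v

open Classical in
/-- The incidence number of the 2-cell `f` and the oriented edge `e`: the number of sides of `f`
traversing `e` minus the number of sides of `f` traversing `e` backwards. -/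
noncomputable def CellComplex.incidence (U : CellComplex) (f : U.F) (e : U.E) : ℤ :=
  ∑ i ∈ Finset.range (U.len f),
    ((if U.bd f i = e then 1 else 0) - (if U.bd f i = U.rev e then 1 else 0))

/-- The cellular boundary of a 2-chain `c` with coefficients in `R`, evaluated at `e`. -/
noncomputable def CellComplex.boundary (U : CellComplex) {R : Type} [AddCommGroup R]
    (c : U.F → R) (e : U.E) : R :=
  ∑ᶠ f : U.F, U.incidence f e • c f

/-- The closed linear span of a subset `Z` of a complex Hilbert space. -/
noncomputable def closedSpan {H : Type} [NormedAddCommGroup H] [InnerProductSpace ℂ H]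
    (Z : Set H) : Submodule ℂ H :=
  (Submodule.span ℂ Z).topologicalClosure

instance {H : Type} [NormedAddCommGroup H] [InnerProductSpace ℂ H] [CompleteSpace H]
    (Z : Set H) : (closedSpan Z).HasOrthogonalProjection := by
  have : CompleteSpace (closedSpan Z) :=
    (Submodule.isClosed_topologicalClosure _).completeSpace_coe
  infer_instance

/-- `⟨v, P v⟩`, where `P` is the orthogonal projection onto the closed linear span of `Z`. -/
noncomputable def projectionForm {H : Type} [NormedAddCommGroup H] [InnerProductSpace ℂ H]
    [CompleteSpace H] (Z : Set H) (v : H) : ℝ :=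
  (inner ℂ v ((closedSpan Z).starProjection v)).re

/-- The Hilbert space of square-summable complex functions on `A`. -/
def L2 (A : Type) : Type := lp (fun _ : A => ℂ) 2

noncomputable instance {A : Type} : NormedAddCommGroup (L2 A) :=
  lp.normedAddCommGroup (E := fun _ : A => ℂ) (p := 2)

noncomputable instance {A : Type} : InnerProductSpace ℂ (L2 A) :=
  lp.instInnerProductSpace (G := fun _ : A => ℂ)

instance {A : Type} : CompleteSpace (L2 A) :=
  lp.completeSpace (E := fun _ : A => ℂ) (p := 2)

/-- The values of a square-summable function. -/
def L2.value {A : Type} (c : L2 A) (a : A) : ℂ := c.1 a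

open Classical in
/-- The characteristic function of a point. -/
noncomputable def L2.delta {A : Type} (a : A) : L2 A := lp.single 2 a (1 : ℂ)

namespace TwoComplex

variable (X : TwoComplex)

/-- The first `n` sides of the 2-cell `f`, as a path. -/
def bdPath (f : X.F) (n : ℕ) : List X.E := (List.range n).map fun j : ℕ => X.bd f j

/-- Homotopy of edge paths starting at the base vertex: the equivalence relation generated by
inserting or deleting a backtrack `e, rev e`, and inserting or deleting the closed boundary path
of a 2-cell. -/
inductive Homotopic : List X.E → List X.E → Prop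
  | refl (p : List X.E) : Homotopic p p
  | symm {p q : List X.E} : Homotopic p q → Homotopic q p
  | trans {p q r : List X.E} : Homotopic p q → Homotopic q r → Homotopic p r
  | backtrack (p q : List X.E) (e : X.E) : X.IsPath X.base p (X.src e) →
      Homotopic (p ++ e :: X.rev e :: q) (p ++ q)
  | face (p q : List X.E) (f : X.F) : X.IsPath X.base p (X.src (X.bd f 0)) →
      Homotopic (p ++ (X.bdPath f (X.len f) ++ q)) (p ++ q)

/-- Homotopy classes of edge paths starting at the base vertex. -/
def PathClass : Type := Quot X.Homotopic

variable {X}

/-! ### lemmas on paths -/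

theorem isPath_nil {U : CellComplex} {u v : U.V} : U.IsPath u [] v ↔ u = v := by
  constructor
  · intro h; cases h; rfl
  · rintro rfl; exact .nil _

theorem isPath_cons {U : CellComplex} {u v : U.V} {e : U.E} {p : List U.E} :
    U.IsPath u (e :: p) v ↔ U.src e = u ∧ U.IsPath (U.src (U.rev e)) p v := by
  constructor
  · intro h; cases h with
    | cons _ _ _ h => exact ⟨rfl, h⟩
  · rintro ⟨rfl, h⟩; exact .cons _ _ _ h

theorem isPath_append_iff {U : CellComplex} {u v : U.V} {p q : List U.E} :
    U.IsPath u (p ++ q) v ↔ ∃ w, U.IsPath u p w ∧ U.IsPath w q v := by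
  induction p generalizing u with
  | nil => simp [isPath_nil]
  | cons e p ih => simp [isPath_cons, ih, and_assoc]

theorem isPath_unique {U : CellComplex} {u v w : U.V} {p : List U.E} (h : U.IsPath u p v)
    (h' : U.IsPath u p w) : v = w := by
  induction p generalizing u with
  | nil => rw [isPath_nil] at h h'; exact h.symm.trans h'
  | cons e p ih => rw [isPath_cons] at h h'; exact ih h.2 h'.2

theorem isPath_single {U : CellComplex} {e : U.E} : U.IsPath (U.src e) [e] (U.src (U.rev e)) :=
  .cons _ _ _ (.nil _)

theorem isPath_append_of_left {U : CellComplex} {u v w : U.V} {p q : List U.E}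
    (h : U.IsPath u p w) : U.IsPath u (p ++ q) v ↔ U.IsPath w q v := by
  rw [isPath_append_iff]
  constructor
  · rintro ⟨w', h1, h2⟩
    rwa [isPath_unique h h1]
  · exact fun h2 => ⟨w, h, h2⟩

theorem isPath_append {U : CellComplex} {u v w : U.V} {p q : List U.E}
    (h : U.IsPath u p w) (h' : U.IsPath w q v) : U.IsPath u (p ++ q) v :=
  (isPath_append_of_left h).2 h'

theorem isPath_bdPath (f : X.F) (n : ℕ) :
    X.IsPath (X.src (X.bd f 0)) (X.bdPath f n) (X.src (X.bd f n)) := by
  induction n with
  | zero => exact isPath_nil.2 rfl
  | succ n ih =>
    unfold bdPath at *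
    rw [List.range_succ, List.map_append]
    refine isPath_append ih ?_
    rw [List.map_singleton, isPath_cons, isPath_nil]
    refine ⟨rfl, ?_⟩
    have := X.bd_closed f n
    simpa using this

theorem isPath_bdPath_len (f : X.F) :
    X.IsPath (X.src (X.bd f 0)) (X.bdPath f (X.len f)) (X.src (X.bd f 0)) := by
  have h := isPath_bdPath f (X.len f)
  have h2 := X.bd_periodic f 0
  rw [zero_add] at h2
  rwa [h2] at h

theorem Homotopic.isPath_iff {p q : List X.E} (h : X.Homotopic p q) (v : X.V) :
    X.IsPath X.base p v ↔ X.IsPath X.base q v := by
  induction h with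
  | refl => rfl
  | symm _ ih => exact ih.symm
  | trans _ _ ih1 ih2 => exact ih1.trans ih2
  | backtrack p q e hp =>
    rw [isPath_append_of_left hp, isPath_append_of_left hp, isPath_cons, isPath_cons]
    simp [X.rev_rev]
  | face p q f hp =>
    rw [isPath_append_of_left hp, isPath_append_of_left hp,
      isPath_append_of_left (isPath_bdPath_len f)]

theorem Homotopic.append_right {p q : List X.E} (h : X.Homotopic p q) (r : List X.E) :
    X.Homotopic (p ++ r) (q ++ r) := by
  induction h with
  | refl => exact .refl _
  | symm _ ih => exact .symm ih
  | trans _ _ ih1 ih2 => exact .trans ih1 ih2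
  | backtrack p q e hp =>
    have := Homotopic.backtrack p (q ++ r) e hp
    simpa using this
  | face p q f hp =>
    have := Homotopic.face p (q ++ r) f hp
    simpa using this

theorem Homotopic.append_left {p q : List X.E} (h : X.Homotopic p q) {g : List X.E}
    (hg : X.IsPath X.base g X.base) : X.Homotopic (g ++ p) (g ++ q) := by
  induction h with
  | refl => exact .refl _
  | symm _ ih => exact .symm ih
  | trans _ _ ih1 ih2 => exact .trans ih1 ih2
  | backtrack p q e hp =>
    have := Homotopic.backtrack (g ++ p) q e (isPath_append hg hp)
    simpa using this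
  | face p q f hp =>
    have := Homotopic.face (g ++ p) q f (isPath_append hg hp)
    simpa using this

/-- the inverse path -/
def revWord {E : Type} (rev : E → E) (p : List E) : List E := (p.map rev).reverse

theorem isPath_revWord {U : CellComplex} {u v : U.V} {p : List U.E}
    (h : U.IsPath u p v) : U.IsPath v (revWord U.rev p) u := by
  induction p generalizing u with
  | nil => rw [isPath_nil] at h; exact isPath_nil.2 h.symm
  | cons e p ih =>
    rw [isPath_cons] at h
    have := ih h.2
    simp only [revWord, List.map_cons, List.reverse_cons]
    refine isPath_append this ?_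
    rw [isPath_cons, isPath_nil, U.rev_rev]
    exact ⟨rfl, h.1⟩

theorem homotopic_append_revWord {p : List X.E} {u v : X.V} (hp : X.IsPath X.base p u)
    (w : List X.E) (hw : X.IsPath u w v) (q : List X.E) :
    X.Homotopic (p ++ (w ++ (revWord X.rev w ++ q))) (p ++ q) := by
  induction w generalizing p u q with
  | nil => exact .refl _
  | cons e w ih =>
    rw [isPath_cons] at hw
    have hp' : X.IsPath X.base p (X.src e) := by rw [hw.1]; exact hp
    have h1 := ih (p := p ++ [e]) (isPath_append hp' isPath_single) hw.2 (X.rev e :: q)
    have h2 := Homotopic.backtrack p q e hp'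
    refine .trans ?_ h2
    simpa [revWord] using h1

theorem homotopic_revWord_append {p : List X.E} {u v : X.V} (hp : X.IsPath X.base p v)
    (w : List X.E) (hw : X.IsPath u w v) (q : List X.E) :
    X.Homotopic (p ++ (revWord X.rev w ++ (w ++ q))) (p ++ q) := by
  have h := homotopic_append_revWord hp (revWord X.rev w) (isPath_revWord hw) q
  have h' : revWord X.rev (revWord X.rev w) = w := by
    simp [revWord, Function.comp_def, X.rev_rev]
  rwa [h'] at h

namespace PathClass

/-- The homotopy class of a path. -/
def mk (p : List X.E) : X.PathClass := Quot.mk X.Homotopic p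

/-- `γ.IsTo v`: the class `γ` is the class of an edge path from the base vertex to `v`. -/
def IsTo (γ : X.PathClass) (v : X.V) : Prop := ∃ p, mk p = γ ∧ X.IsPath X.base p v

/-- Prolong the paths in the class `γ` by the path `w`. -/
def append (γ : X.PathClass) (w : List X.E) : X.PathClass :=
  Quot.map (fun p => p ++ w) (fun _ _ h => Homotopic.append_right h w) γ

theorem mk_eq_mk {p q : List X.E} : mk p = mk q ↔ X.Homotopic p q := by
  constructor
  · intro h
    have h1 : Relation.EqvGen X.Homotopic p q := Quot.eqvGen_exact h
    have h2 : Equivalence X.Homotopic := ⟨.refl, .symm, .trans⟩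
    rwa [h2.eqvGen_iff] at h1
  · exact fun h => Quot.sound h

@[simp] theorem isTo_mk {p : List X.E} {v : X.V} : (mk p).IsTo v ↔ X.IsPath X.base p v := by
  constructor
  · rintro ⟨q, h1, h2⟩
    exact ((mk_eq_mk.1 h1).isPath_iff v).1 h2
  · exact fun h => ⟨p, rfl, h⟩

@[simp] theorem append_mk (p w : List X.E) : (mk p).append w = mk (p ++ w) := rfl

theorem ind {P : X.PathClass → Prop} (h : ∀ p, P (mk p)) (γ : X.PathClass) : P γ :=
  Quot.ind h γ

theorem append_append (γ : X.PathClass) (w w' : List X.E) :
    (γ.append w).append w' = γ.append (w ++ w') := by
  induction γ using ind with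
  | h p => simp

@[simp] theorem append_nil (γ : X.PathClass) : γ.append [] = γ := by
  induction γ using ind with
  | h p => simp

theorem IsTo.append {γ : X.PathClass} {u v : X.V} {w : List X.E} (h : γ.IsTo u)
    (hw : X.IsPath u w v) : (γ.append w).IsTo v := by
  induction γ using ind with
  | h p => exact isTo_mk.2 (isPath_append (isTo_mk.1 h) hw)

theorem append_append_revWord {γ : X.PathClass} {u v : X.V} (h : γ.IsTo u) {w : List X.E}
    (hw : X.IsPath u w v) : (γ.append w).append (revWord X.rev w) = γ := by
  induction γ using ind with
  | h p =>
    simp only [append_mk]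
    rw [mk_eq_mk]
    simpa using homotopic_append_revWord (isTo_mk.1 h) w hw []

theorem append_bdPath_len {γ : X.PathClass} {f : X.F} (h : γ.IsTo (X.src (X.bd f 0))) :
    γ.append (X.bdPath f (X.len f)) = γ := by
  induction γ using ind with
  | h p =>
    simp only [append_mk]
    rw [mk_eq_mk]
    simpa using Homotopic.face p [] f (isTo_mk.1 h)

end PathClass

/-! ### the universal cover -/

variable (X)

/-- The vertices of the universal cover: homotopy classes of edge paths from the base vertex,
with their end points. -/
@[ext] structure CoverVertex where
  /-- the class -/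
  cls : X.PathClass
  /-- the end point -/
  vertex : X.V
  isTo : cls.IsTo vertex

/-- The oriented edges of the universal cover: an oriented edge of `X` with a homotopy class of
edge paths from the base vertex to its initial vertex. -/
@[ext] structure CoverEdge where
  /-- the class -/
  cls : X.PathClass
  /-- the edge of `X` -/
  edge : X.E
  isTo : cls.IsTo (X.src edge)

/-- The 2-cells of the universal cover: a 2-cell of `X` with a homotopy class of edge paths
from the base vertex to the initial vertex of its side number `0`. -/
@[ext] structure CoverFace where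
  /-- the class -/
  cls : X.PathClass
  /-- the 2-cell of `X` -/
  face : X.F
  isTo : cls.IsTo (X.src (X.bd face 0))

variable {X}

/-- initial vertices in the universal cover -/
def coverSrc (q : X.CoverEdge) : X.CoverVertex := ⟨q.cls, X.src q.edge, q.isTo⟩

theorem coverRev_isTo (q : X.CoverEdge) : (q.cls.append [q.edge]).IsTo (X.src (X.rev q.edge)) :=
  q.isTo.append isPath_single

/-- orientation reversal in the universal cover -/
def coverRev (q : X.CoverEdge) : X.CoverEdge :=
  ⟨q.cls.append [q.edge], X.rev q.edge, coverRev_isTo q⟩

theorem bd_add_mul (f : X.F) (i : ℤ) (k : ℕ) : X.bd f (i + k * X.len f) = X.bd f i := by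
  induction k with
  | zero => simp
  | succ k ih =>
    have h : i + ((k + 1 : ℕ) : ℤ) * X.len f = (i + k * X.len f) + X.len f := by
      push_cast; ring
    rw [h, X.bd_periodic, ih]

theorem bd_emod (f : X.F) (i : ℤ) : X.bd f (i % X.len f) = X.bd f i := by
  have h1 := Int.emod_add_mul_ediv i (X.len f)
  rcases Int.eq_nat_or_neg (i / X.len f) with ⟨k, hk | hk⟩
  · rw [hk] at h1
    have h2 := bd_add_mul f (i % X.len f) k
    rw [← h2]
    congr 1
    rw [← h1]
    ring_nf
    rw [h1]
    ring_nf at h1
    linarith
  · rw [hk] at h1
    have h2 := bd_add_mul f i k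
    rw [← h2]
    congr 1
    linarith

theorem bd_emod_toNat (f : X.F) (i : ℤ) : X.bd f (i % X.len f).toNat = X.bd f i := by
  have h : (0 : ℤ) < X.len f := by exact_mod_cast X.len_pos f
  rw [Int.toNat_of_nonneg (Int.emod_nonneg _ h.ne'), bd_emod]

theorem coverBd_isTo (q : X.CoverFace) (i : ℤ) :
    (q.cls.append (X.bdPath q.face (i % X.len q.face).toNat)).IsTo (X.src (X.bd q.face i)) := by
  have h := q.isTo.append (isPath_bdPath q.face (i % X.len q.face).toNat)
  rwa [bd_emod_toNat] at h

/-- attaching maps in the universal cover: the side number `i` of `(γ, f)` lies over the side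
number `i` of `f`, and is reached by the class of `γ` followed by the first `i mod len f` sides
of `f` -/
def coverBd (q : X.CoverFace) (i : ℤ) : X.CoverEdge :=
  ⟨q.cls.append (X.bdPath q.face (i % X.len q.face).toNat), X.bd q.face i, coverBd_isTo q i⟩

theorem coverRev_coverRev (q : X.CoverEdge) : coverRev (coverRev q) = q := by
  obtain ⟨γ, e, h⟩ := q
  have := PathClass.append_append_revWord h (w := [e]) isPath_single
  ext
  · simpa [coverRev, X.rev_rev, revWord] using this
  · simp [coverRev, X.rev_rev]

theorem coverRev_ne (q : X.CoverEdge) : coverRev q ≠ q := by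
  intro h'
  exact X.rev_ne q.edge (congrArg CoverEdge.edge h')

theorem coverBd_periodic (q : X.CoverFace) (i : ℤ) :
    coverBd q (i + X.len q.face) = coverBd q i := by
  ext
  · simp [coverBd]
  · exact X.bd_periodic _ _

theorem bdPath_succ (f : X.F) (n : ℕ) : X.bdPath f (n + 1) = X.bdPath f n ++ [X.bd f n] := by
  unfold bdPath
  rw [List.range_succ, List.map_append, List.map_singleton]

theorem coverBd_closed (q : X.CoverFace) (i : ℤ) :
    coverSrc (coverRev (coverBd q i)) = coverSrc (coverBd q (i + 1)) := by
  obtain ⟨γ, f, h⟩ := q
  ext
  · change (γ.append (X.bdPath f (i % X.len f).toNat)).append [X.bd f i] =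
      γ.append (X.bdPath f ((i + 1) % X.len f).toNat)
    have hl : (0 : ℤ) < X.len f := by exact_mod_cast X.len_pos f
    have h1 := Int.emod_nonneg i hl.ne'
    have h2 := Int.emod_lt_of_pos i hl
    rw [PathClass.append_append, ← bd_emod_toNat f i, ← bdPath_succ]
    rcases lt_or_ge (i % X.len f + 1) (X.len f) with h3 | h3
    · have h4 : (i + 1) % X.len f = i % X.len f + 1 := by
        rw [← Int.emod_add_emod]
        exact Int.emod_eq_of_lt (by omega) h3
      rw [h4]
      congr 2
      omega
    · have h4 : i % X.len f + 1 = X.len f := by omega
      have h5 : (i + 1) % X.len f = 0 := by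
        rw [← Int.emod_add_emod, h4]
        simp
      have h6 : (i % X.len f).toNat + 1 = X.len f := by omega
      rw [h5, h6, PathClass.append_bdPath_len h]
      simp [bdPath]
  · exact X.bd_closed f i

variable (X)

/-- The universal cover of `X`. -/
def universalCover : CellComplex where
  V := X.CoverVertex
  E := X.CoverEdge
  F := X.CoverFace
  src := coverSrc
  rev := coverRev
  rev_rev := coverRev_coverRev
  rev_ne := coverRev_ne
  len q := X.len q.face
  len_pos q := X.len_pos q.face
  bd := coverBd
  bd_periodic := coverBd_periodic
  bd_closed := coverBd_closed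

/-- A compact two-complex: finitely many cells. -/
def IsCompact : Prop := Finite X.V ∧ Finite X.E ∧ Finite X.F

/-- `X` is aspherical: the second homology (with integer coefficients, the group of integral
cellular 2-cycles) of its universal cover vanishes. Since the universal cover is a simply
connected 2-dimensional complex, this means (Hurewicz and Whitehead) that it is contractible. -/
def IsAspherical : Prop :=
  ∀ c : X.CoverFace →₀ ℤ, (∀ e, X.universalCover.boundary c e = 0) → c = 0

/-- The L2-cycles: the square-summable 2-chains `c` (with complex coefficients) of the universal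
cover with `∂ c = 0`. -/
def l2Cycles : Set (L2 X.CoverFace) :=
  {c | ∀ e, X.universalCover.boundary c.value e = 0}

/-- A chosen 2-cell of the universal cover above the 2-cell `f` of `X`. -/
noncomputable def lift (f : X.F) : X.CoverFace :=
  ⟨PathClass.mk (Classical.choose (X.connected (X.src (X.bd f 0)))), f,
    PathClass.isTo_mk.2 (Classical.choose_spec (X.connected (X.src (X.bd f 0))))⟩

/-- The second L2-Betti number of `X`: the von Neumann dimension of the space `Z` of
L2-cycles of the universal cover (its reduced second L2-homology), i.e. the sum over the 2-cells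
`f` of `X` (the orbits of 2-cells of the universal cover under the fundamental group) of
`⟨δ, P δ⟩`, where `P` is the orthogonal projection onto `Z` and `δ` is the characteristic function
of a 2-cell above `f`. -/
noncomputable def l2Betti : ℝ := ∑ᶠ f : X.F, projectionForm X.l2Cycles (L2.delta (X.lift f))

/-- The Euler characteristic (number of vertices - number of edges + number of 2-cells) of a
compact two-complex. Each edge counts for two oriented edges. -/
noncomputable def eulerChar : ℤ := (Nat.card X.V : ℤ) - (Nat.card X.E : ℤ) / 2 + Nat.card X.F

/-! ### The fundamental group -/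

/-- Closed edge paths at the base vertex. -/
abbrev Loop : Type := {p : List X.E // X.IsPath X.base p X.base}

/-- The fundamental group of `X`: homotopy classes of closed edge paths at the base vertex. -/
def FundGroup : Type := Quot fun p q : X.Loop => X.Homotopic p.1 q.1

variable {X}

/-- concatenation of closed paths -/
def loopMul (p q : X.Loop) : X.Loop := ⟨p.1 ++ q.1, isPath_append p.2 q.2⟩

/-- Multiplication in the fundamental group: concatenation of paths. -/
instance : Mul X.FundGroup where
  mul := Quot.map₂ loopMul (fun a _ _ h => h.append_left a.2) (fun _ _ b h => h.append_right b.1)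

/-! ### Combinatorial maps and immersions -/

/-- A combinatorial map of two-complexes. A 2-cell `f` is mapped homeomorphically onto the
2-cell `onF f`, such that the side number `i` of `f` is mapped to the side number `side f i` of
`onF f`, where `side f i` is `shift f + i` or `shift f - i` (in the second case the identification
of the two polygons reverses the orientation). -/
structure Hom (Y X : TwoComplex) where
  /-- the map on vertices -/
  onV : Y.V → X.V
  /-- the map on oriented edges -/
  onE : Y.E → X.E
  /-- the map on 2-cells -/
  onF : Y.F → X.F
  src_onE : ∀ e, X.src (onE e) = onV (Y.src e)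
  rev_onE : ∀ e, X.rev (onE e) = onE (Y.rev e)
  len_onF : ∀ f, X.len (onF f) = Y.len f
  /-- whether the 2-cell is mapped preserving orientation -/
  pos : Y.F → Bool
  /-- the number of the side to which the side number `0` is mapped -/
  shift : Y.F → ℤ
  bd_pos : ∀ f i, pos f = true → X.bd (onF f) (shift f + i) = onE (Y.bd f i)
  bd_neg : ∀ f i, pos f = false → X.bd (onF f) (shift f - i) = X.rev (onE (Y.bd f i))

/-- The number of the image of the side number `i` of `f`. -/
def Hom.side {Y X : TwoComplex} (φ : Hom Y X) (f : Y.F) (i : ℤ) : ℤ :=
  if φ.pos f then φ.shift f + i else φ.shift f - i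

/-- The number of the image of the corner number `i` of `f`. The corner number `i` of a 2-cell is
the one between its sides number `i - 1` and `i`, it lies at the initial vertex of the side
number `i`. An orientation reversing identification maps it to the corner between the sides
number `side f i` and `side f (i - 1) = side f i + 1`. -/
def Hom.corner {Y X : TwoComplex} (φ : Hom Y X) (f : Y.F) (i : ℤ) : ℤ :=
  if φ.pos f then φ.shift f + i else φ.shift f - i + 1

/-- A combinatorial map is an immersion if it is locally injective:
* distinct oriented edges with the same initial vertex have distinct images,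
* distinct sides of 2-cells along the same edge have distinct images,
* distinct corners of 2-cells at the same vertex have distinct images.
(Sides and corners are pairs of a 2-cell and an integer modulo the number of its sides.) -/
structure Hom.IsImmersion {Y X : TwoComplex} (φ : Hom Y X) : Prop where
  edges : ∀ e e' : Y.E, Y.src e = Y.src e' → φ.onE e = φ.onE e' → e = e'
  sides : ∀ (f f' : Y.F) (i i' : ℤ), (Y.bd f i = Y.bd f' i' ∨ Y.bd f i = Y.rev (Y.bd f' i')) →
    φ.onF f = φ.onF f' → φ.side f i ≡ φ.side f' i' [ZMOD X.len (φ.onF f)] →
    f = f' ∧ i ≡ i' [ZMOD Y.len f]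
  corners : ∀ (f f' : Y.F) (i i' : ℤ), Y.src (Y.bd f i) = Y.src (Y.bd f' i') →
    φ.onF f = φ.onF f' → φ.corner f i ≡ φ.corner f' i' [ZMOD X.len (φ.onF f)] →
    f = f' ∧ i ≡ i' [ZMOD Y.len f]

variable (X)

/-- `X` has non-positive immersions: for every combinatorial immersion `Y → X` of a compact
(connected) two-complex `Y`, either `χ(Y) ≤ 0` or the fundamental group of `Y` is trivial. -/
def NonPositiveImmersions : Prop :=
  ∀ (Y : TwoComplex) (φ : Hom Y X), Y.IsCompact → φ.IsImmersion →
    Y.eulerChar ≤ 0 ∨ Subsingleton Y.FundGroup

end TwoComplex

end Pool.Agent.Helper43.NPI
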