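import Pool.Agent.Helper43.NPI.Sphere

/-!
The equivalence `non-positive immersions ⟺ vanishing second L2-Betti number` for compact
aspherical two-complexes is false, in every homotopy type.
-/

set_option autoImplicit false

namespace Pool.Agent.Helper43.NPI.Disproof

open Pool.Agent.Helper43.NPI

/-- It is not true that a compact aspherical two-complex has non-positive immersions exactly
when its second L2-Betti number vanishes. Moreover, for every compact aspherical two-complex `K`
there is a compact aspherical two-complex `X` with the same fundamental group (hence homotopy
equivalent to `K`) and the same second L2-Betti number which does not have non-positive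
immersions. -/
theorem result :
    (¬ ∀ X : TwoComplex, X.IsCompact → X.IsAspherical →
      (X.NonPositiveImmersions ↔ X.l2Betti = 0)) ∧
    ∀ K : TwoComplex, K.IsCompact → K.IsAspherical →
      ∃ X : TwoComplex, X.IsCompact ∧ X.IsAspherical ∧ Nonempty (X.FundGroup ≃* K.FundGroup) ∧
        X.l2Betti = K.l2Betti ∧ ¬ X.NonPositiveImmersions :=
  ⟨TwoComplex.not_equivalence, TwoComplex.main⟩

end Pool.Agent.Helper43.NPI.Disproof
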