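import Pool.Agent.Helper43.NPI.Betti

set_option autoImplicit false

namespace Pool.Agent.Helper43.NPI

namespace TwoComplex

/-- initial vertices of the seven edges -/
def ySrc : Fin 7 → Fin 4 := ![2, 0, 3, 1, 0, 1, 2]
/-- terminal vertices of the seven edges -/
def yTgt : Fin 7 → Fin 4 := ![1, 0, 3, 2, 1, 2, 3]

/-- attaching words of the two pentagons -/
def yWord (k : Bool) : ZMod 5 → Fin 7 × Bool :=
  if k then ![(5, true), (6, true), (2, true), (6, false), (0, true)]
  else ![(4, true), (5, true), (0, true), (4, false), (1, true)]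

/-- attaching words of the two discs with one side -/
def yLoop (k : Bool) : Fin 7 × Bool := if k then (2, true) else (1, true)

/-- attaching maps of the four 2-cells -/
def yBd (f : Bool × Bool) (i : ℤ) : Fin 7 × Bool :=
  if f.1 then yWord f.2 (i : ZMod 5) else yLoop f.2

/-- initial vertices of the oriented edges -/
def ysrc (e : Fin 7 × Bool) : Fin 4 := cond e.2 (ySrc e.1) (yTgt e.1)

/-- orientation reversal -/
def yrev (e : Fin 7 × Bool) : Fin 7 × Bool := (e.1, !e.2)

theorem five_zmod : (((5 : ℕ) : ℤ) : ZMod 5) = 0 := by decide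

/-- The cells of a 2-sphere with an extra edge (number `3`) attached at two of its vertices. -/
def sphereWithArcCells : CellComplex where
  V := Fin 4
  E := Fin 7 × Bool
  F := Bool × Bool
  src := ysrc
  rev := yrev
  rev_rev := by decide
  rev_ne := by decide
  len f := cond f.1 5 1
  len_pos := by decide
  bd := yBd
  bd_periodic := by
    rintro ⟨_ | _, k⟩ i
    · rfl
    · have h : ((i + ((5 : ℕ) : ℤ) : ℤ) : ZMod 5) = (i : ZMod 5) := by
        rw [Int.cast_add, five_zmod, add_zero]
      exact congrArg (yWord k) h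
  bd_closed := by
    have h5 : ∀ k : Bool, ∀ i : ZMod 5, ysrc (yrev (yWord k i)) = ysrc (yWord k (i + 1)) := by
      decide
    have h1 : ∀ k : Bool, ysrc (yrev (yLoop k)) = ysrc (yLoop k) := by decide
    rintro ⟨_ | _, k⟩ i
    · exact h1 k
    · have h : ((i + 1 : ℤ) : ZMod 5) = (i : ZMod 5) + 1 := by
        rw [Int.cast_add, Int.cast_one]
      exact (h5 k i).trans (congrArg (fun j => ysrc (yWord k j)) h.symm)

/-- A 2-sphere with an extra edge (number `3`) attached at two of its vertices. -/
def sphereWithArc : TwoComplex where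
  toCellComplex := sphereWithArcCells
  base := (0 : Fin 4)
  connected := by
    have h4 : sphereWithArcCells.IsPath (0 : Fin 4) [((4 : Fin 7), true)] (1 : Fin 4) :=
      isPath_single (U := sphereWithArcCells) (e := ((4 : Fin 7), true))
    have h5 : sphereWithArcCells.IsPath (1 : Fin 4) [((5 : Fin 7), true)] (2 : Fin 4) :=
      isPath_single (U := sphereWithArcCells) (e := ((5 : Fin 7), true))
    have h6 : sphereWithArcCells.IsPath (2 : Fin 4) [((6 : Fin 7), true)] (3 : Fin 4) :=
      isPath_single (U := sphereWithArcCells) (e := ((6 : Fin 7), true))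
    intro v
    have hv : ∀ v : Fin 4, v = 0 ∨ v = 1 ∨ v = 2 ∨ v = 3 := by decide
    rcases hv v with h | h | h | h
    · rw [h]
      exact ⟨[], isPath_nil.2 rfl⟩
    · rw [h]
      exact ⟨_, h4⟩
    · rw [h]
      exact ⟨_, isPath_append h4 h5⟩
    · rw [h]
      exact ⟨_, isPath_append (isPath_append h4 h5) h6⟩

theorem sphereWithArc_isCompact : sphereWithArc.IsCompact := by
  refine ⟨?_, ?_, ?_⟩
  · change Finite (Fin 4)
    infer_instance
  · change Finite (Fin 7 × Bool)
    infer_instance
  · change Finite (Bool × Bool)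
    infer_instance

theorem sphereWithArc_eulerChar : sphereWithArc.eulerChar = 1 := by
  unfold eulerChar
  have h1 : Nat.card sphereWithArc.V = 4 := by
    change Nat.card (Fin 4) = 4
    simp
  have h2 : Nat.card sphereWithArc.E = 14 := by
    change Nat.card (Fin 7 × Bool) = 14
    simp
  have h3 : Nat.card sphereWithArc.F = 4 := by
    change Nat.card (Bool × Bool) = 4
    simp
  rw [h1, h2, h3]
  norm_num

/-- the cocycle dual to the extra edge -/
def arcCount' : Fin 7 × Bool → ℤ := fun e => if e.1 = 3 then (if e.2 then 1 else -1) else 0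

/-- the cocycle dual to the extra edge -/
def arcCount : sphereWithArc.E → ℤ := arcCount'

theorem arcCount_homotopic {p q : List sphereWithArc.E} (h : sphereWithArc.Homotopic p q) :
    (p.map arcCount).sum = (q.map arcCount).sum := by
  induction h with
  | refl => rfl
  | symm _ ih => exact ih.symm
  | trans _ _ ih1 ih2 => exact ih1.trans ih2
  | backtrack p q e _ =>
    have h1 : ∀ e : Fin 7 × Bool, arcCount' e + arcCount' (yrev e) = 0 := by decide
    have h2 : arcCount e + arcCount (sphereWithArc.rev e) = 0 := h1 e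
    simp only [List.map_append, List.map_cons, List.sum_append, List.sum_cons]
    linarith
  | face p q f _ =>
    have h1 : ((sphereWithArc.bdPath f (sphereWithArc.len f)).map arcCount).sum = 0 := by
      obtain ⟨_ | _, _ | _⟩ := f <;> decide
    simp only [List.map_append, List.sum_append, h1, zero_add]

theorem sphereWithArc_not_subsingleton : ¬ Subsingleton sphereWithArc.FundGroup := by
  intro h
  have h4 : sphereWithArc.IsPath (0 : Fin 4) [((4 : Fin 7), true)] (1 : Fin 4) :=
    isPath_single (U := sphereWithArcCells) (e := ((4 : Fin 7), true))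
  have h3 : sphereWithArc.IsPath (1 : Fin 4) [((3 : Fin 7), true)] (2 : Fin 4) :=
    isPath_single (U := sphereWithArcCells) (e := ((3 : Fin 7), true))
  have h0 : sphereWithArc.IsPath (2 : Fin 4) [((0 : Fin 7), true)] (1 : Fin 4) :=
    isPath_single (U := sphereWithArcCells) (e := ((0 : Fin 7), true))
  have h4' : sphereWithArc.IsPath (1 : Fin 4) [((4 : Fin 7), false)] (0 : Fin 4) :=
    isPath_single (U := sphereWithArcCells) (e := ((4 : Fin 7), false))
  let p : sphereWithArc.Loop :=
    ⟨_, isPath_append (isPath_append (isPath_append h4 h3) h0) h4'⟩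
  let q : sphereWithArc.Loop := ⟨[], isPath_nil.2 rfl⟩
  have h1 : Quot.mk (fun p q : sphereWithArc.Loop => sphereWithArc.Homotopic p.1 q.1) p =
    Quot.mk _ q := Subsingleton.elim (α := sphereWithArc.FundGroup) _ _
  have h2 : ∀ p q : sphereWithArc.Loop, Relation.EqvGen
      (fun p q : sphereWithArc.Loop => sphereWithArc.Homotopic p.1 q.1) p q →
      (p.1.map arcCount).sum = (q.1.map arcCount).sum := by
    intro p q h
    induction h with
    | rel p q h => exact arcCount_homotopic h
    | refl => rfl
    | symm _ _ _ ih => exact ih.symm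
    | trans _ _ _ _ _ ih1 ih2 => exact ih1.trans ih2
  have h5 : ([((4 : Fin 7), true), ((3 : Fin 7), true), ((0 : Fin 7), true),
      ((4 : Fin 7), false)].map arcCount').sum = 0 := h2 p q (Quot.eqvGen_exact h1)
  exact absurd h5 (by decide)

variable (K : TwoComplex)

/-- the image of an edge -/
def yImg (e : Fin 7 × Bool) : Bool × Bool := (decide ((4 : Fin 7) ≤ e.1), e.2)

/-- The combinatorial map from the sphere with an arc to the wedge. -/
def sphereMap : Hom sphereWithArc K.wedge where
  onV _ := K.base
  onE e := eA (yImg e)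
  onF f := fA f.1
  src_onE _ := rfl
  rev_onE _ := rfl
  len_onF _ := rfl
  pos _ := true
  shift _ := 0
  bd_pos := by
    have h5 : ∀ k : Bool, ∀ i : ZMod 5, abWord i = yImg (yWord k i) := by decide
    have h1 : ∀ k : Bool, (false, true) = yImg (yLoop k) := by decide
    rintro ⟨_ | _, k⟩ i _
    · exact congrArg eA (h1 k)
    · rw [zero_add]
      exact congrArg eA (h5 k i)
  bd_neg := by
    intro _ _ h
    exact absurd h (by decide)

theorem sphereMap_key (f f' : Bool × Bool) (h : f.1 = f'.1) (i i' : ℤ)
    (hi : i ≡ i' [ZMOD (cond f.1 5 1 : ℕ)])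
    (hs : yBd f i = yBd f' i' ∨ yBd f i = yrev (yBd f' i') ∨ ysrc (yBd f i) = ysrc (yBd f' i')) :
    f = f' := by
  have h5 : ∀ k k' : Bool, ∀ i : ZMod 5, (yWord k i = yWord k' i ∨
      yWord k i = yrev (yWord k' i) ∨ ysrc (yWord k i) = ysrc (yWord k' i)) → k = k' := by
    decide
  have h1 : ∀ k k' : Bool, (yLoop k = yLoop k' ∨
      yLoop k = yrev (yLoop k') ∨ ysrc (yLoop k) = ysrc (yLoop k')) → k = k' := by
    decide
  obtain ⟨b, k⟩ := f
  obtain ⟨b', k'⟩ := f'
  have hb : b = b' := h
  subst hb
  cases b
  · rw [h1 k k' hs]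
  · have hi' : (i : ZMod 5) = (i' : ZMod 5) := (ZMod.intCast_eq_intCast_iff i i' 5).2 hi
    have hs' : yWord k i = yWord k' i' ∨ yWord k i = yrev (yWord k' i') ∨
      ysrc (yWord k i) = ysrc (yWord k' i') := hs
    rw [← hi'] at hs'
    rw [h5 k k' i hs']

theorem sphereMap_isImmersion : (sphereMap K).IsImmersion := by
  refine ⟨?_, ?_, ?_⟩
  · intro e e' h1 h2
    have h3 : yImg e = yImg e' := eA_injective h2
    have h4 : ysrc e = ysrc e' := h1
    have key : ∀ e e' : Fin 7 × Bool, ysrc e = ysrc e' → yImg e = yImg e' → e = e' := by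
      decide
    exact key e e' h4 h3
  · intro f f' i i' h h1 h2
    have h3 : f.1 = f'.1 := fA_injective h1
    have h4 : i ≡ i' [ZMOD (cond f.1 5 1 : ℕ)] := by
      have h5 : 0 + i ≡ 0 + i' [ZMOD (cond f.1 5 1 : ℕ)] := h2
      rwa [zero_add, zero_add] at h5
    exact ⟨sphereMap_key f f' h3 i i' h4 (or_assoc.1 (.inl h)), h4⟩
  · intro f f' i i' h h1 h2
    have h3 : f.1 = f'.1 := fA_injective h1
    have h4 : i ≡ i' [ZMOD (cond f.1 5 1 : ℕ)] := by
      have h5 : 0 + i ≡ 0 + i' [ZMOD (cond f.1 5 1 : ℕ)] := h2
      rwa [zero_add, zero_add] at h5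
    exact ⟨sphereMap_key f f' h3 i i' h4 (or_assoc.1 (.inr h)), h4⟩

theorem wedge_not_nonPositiveImmersions : ¬ K.wedge.NonPositiveImmersions := by
  intro h
  rcases h sphereWithArc (sphereMap K) sphereWithArc_isCompact (sphereMap_isImmersion K) with
    h1 | h1
  · rw [sphereWithArc_eulerChar] at h1
    omega
  · exact sphereWithArc_not_subsingleton h1

theorem main (K : TwoComplex) (hc : K.IsCompact) (ha : K.IsAspherical) :
    ∃ X : TwoComplex, X.IsCompact ∧ X.IsAspherical ∧ Nonempty (X.FundGroup ≃* K.FundGroup) ∧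
      X.l2Betti = K.l2Betti ∧ ¬ X.NonPositiveImmersions :=
  ⟨K.wedge, wedge_isCompact hc, wedge_isAspherical ha, ⟨fundGroupEquiv K⟩, wedge_l2Betti K,
    wedge_not_nonPositiveImmersions K⟩

/-- the one-point complex -/
def pointCells : CellComplex where
  V := Unit
  E := Empty
  F := Empty
  src := fun e => e.elim
  rev := fun e => e
  rev_rev := fun e => e.elim
  rev_ne := fun e => e.elim
  len := fun f => f.elim
  len_pos := fun f => f.elim
  bd := fun f => f.elim
  bd_periodic := fun f => f.elim
  bd_closed := fun f => f.elim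

/-- the one-point complex -/
def point : TwoComplex where
  toCellComplex := pointCells
  base := ()
  connected := fun _ => ⟨[], isPath_nil.2 rfl⟩

theorem point_isCompact : point.IsCompact := by
  refine ⟨?_, ?_, ?_⟩
  · change Finite Unit
    infer_instance
  · change Finite Empty
    infer_instance
  · change Finite Empty
    infer_instance

theorem point_isAspherical : point.IsAspherical := by
  intro c _
  ext ⟨_, f, _⟩
  exact (f : Empty).elim

theorem point_l2Betti : point.l2Betti = 0 := by
  have : IsEmpty point.F := by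
    change IsEmpty Empty
    infer_instance
  exact finsum_of_isEmpty _

theorem not_equivalence :
    ¬ ∀ X : TwoComplex, X.IsCompact → X.IsAspherical →
      (X.NonPositiveImmersions ↔ X.l2Betti = 0) := by
  intro h
  obtain ⟨X, h1, h2, _, h4, h5⟩ := main point point_isCompact point_isAspherical
  exact h5 ((h X h1 h2).2 (h4.trans point_l2Betti))

end TwoComplex

end Pool.Agent.Helper43.NPI
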