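import Pool.Agent.Helper43.NPI.Defs

set_option autoImplicit false

namespace Pool.Agent.Helper43.NPI

namespace TwoComplex

/-- the attaching word `y y x y⁻¹ x` (the first component tells `x` (false) from `y` (true),
the second one is the orientation) -/
def abWord : ZMod 5 → Bool × Bool :=
  ![(true, true), (true, true), (false, true), (true, false), (false, true)]

/-- the attaching words `x` and `y y x y⁻¹ x` -/
def abBd (b : Bool) (i : ℤ) : Bool × Bool := if b then abWord (i : ZMod 5) else (false, true)

/-- The cells of the wedge of `K` (at its base vertex) with the presentation complex of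
`⟨x, y | x, y y x y⁻¹ x⟩`. -/
def wedgeCells (K : TwoComplex) : CellComplex where
  V := K.V
  E := K.E ⊕ (Bool × Bool)
  F := K.F ⊕ Bool
  src := Sum.elim K.src (fun _ => K.base)
  rev := Sum.map K.rev (fun a => (a.1, !a.2))
  rev_rev := by
    rintro (e | ⟨a, b⟩)
    · simp [K.rev_rev]
    · simp
  rev_ne := by
    rintro (e | ⟨a, b⟩)
    · simp [K.rev_ne]
    · simp
  len := Sum.elim K.len (fun b => cond b 5 1)
  len_pos := by
    rintro (f | (_ | _))
    · exact K.len_pos f
    · exact Nat.one_pos
    · exact (by norm_num : 0 < 5)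
  bd := Sum.elim (fun f i => Sum.inl (K.bd f i)) (fun b i => Sum.inr (abBd b i))
  bd_periodic := by
    rintro (f | (_ | _)) i
    · exact congrArg Sum.inl (K.bd_periodic f i)
    · rfl
    · have h : ((i + ((5 : ℕ) : ℤ) : ℤ) : ZMod 5) = (i : ZMod 5) := by
        have : ((5 : ℕ) : ZMod 5) = 0 := by decide
        rw [Int.cast_add, Int.cast_natCast, this, add_zero]
      exact congrArg (fun j => (Sum.inr (abWord j) : K.E ⊕ (Bool × Bool))) h
  bd_closed := by
    rintro (f | b) i
    · exact K.bd_closed f i
    · rfl

/-- The wedge of `K` (at its base vertex) with the presentation complex of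
`⟨x, y | x, y y x y⁻¹ x⟩`. -/
def wedge (K : TwoComplex) : TwoComplex where
  toCellComplex := wedgeCells K
  base := K.base
  connected := by
    intro v
    obtain ⟨p, hp⟩ := K.connected v
    refine ⟨p.map Sum.inl, ?_⟩
    generalize K.base = u at hp ⊢
    induction hp with
    | nil u => exact .nil _
    | cons e p v _ ih => exact CellComplex.IsPath.cons (U := wedgeCells K) (Sum.inl e) _ _ ih

variable {K : TwoComplex}

/-- an edge of `K` as an edge of the wedge -/
def eK (e : K.E) : K.wedge.E := (Sum.inl e : K.E ⊕ (Bool × Bool))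
/-- an edge `x^±, y^±` as an edge of the wedge -/
def eA (a : Bool × Bool) : K.wedge.E := (Sum.inr a : K.E ⊕ (Bool × Bool))
/-- a 2-cell of `K` as a 2-cell of the wedge -/
def fK (f : K.F) : K.wedge.F := (Sum.inl f : K.F ⊕ Bool)
/-- one of the two new 2-cells as a 2-cell of the wedge -/
def fA (b : Bool) : K.wedge.F := (Sum.inr b : K.F ⊕ Bool)

theorem edge_cases (e : K.wedge.E) : (∃ e', e = eK e') ∨ ∃ a, e = eA a := by
  rcases e with e | a
  · exact .inl ⟨e, rfl⟩
  · exact .inr ⟨a, rfl⟩

theorem face_cases (f : K.wedge.F) : (∃ f', f = fK f') ∨ ∃ b, f = fA b := by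
  rcases f with e | a
  · exact .inl ⟨e, rfl⟩
  · exact .inr ⟨a, rfl⟩

theorem eK_injective : Function.Injective (eK (K := K)) := Sum.inl_injective
theorem eA_injective : Function.Injective (eA (K := K)) := Sum.inr_injective
theorem eK_ne_eA (e : K.E) (a : Bool × Bool) : eK e ≠ eA a := Sum.inl_ne_inr
theorem fK_injective : Function.Injective (fK (K := K)) := Sum.inl_injective
theorem fA_injective : Function.Injective (fA (K := K)) := Sum.inr_injective
theorem fK_ne_fA (f : K.F) (b : Bool) : fK f ≠ fA b := Sum.inl_ne_inr

@[simp] theorem src_eK (e : K.E) : K.wedge.src (eK e) = K.src e := rfl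
@[simp] theorem src_eA (a : Bool × Bool) : K.wedge.src (eA a) = K.base := rfl
@[simp] theorem rev_eK (e : K.E) : K.wedge.rev (eK e) = eK (K.rev e) := rfl
@[simp] theorem rev_eA (a : Bool × Bool) : K.wedge.rev (eA a) = eA (a.1, !a.2) := rfl
@[simp] theorem len_fK (f : K.F) : K.wedge.len (fK f) = K.len f := rfl
@[simp] theorem len_fA (b : Bool) : K.wedge.len (fA b) = cond b 5 1 := rfl
@[simp] theorem bd_fK (f : K.F) (i : ℤ) : K.wedge.bd (fK f) i = eK (K.bd f i) := rfl
@[simp] theorem bd_fA (b : Bool) (i : ℤ) : K.wedge.bd (fA b) i = eA (abBd b i) := rfl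
@[simp] theorem base_wedge : K.wedge.base = K.base := rfl

/-- inclusion of words -/
def inc (p : List K.E) : List K.wedge.E := p.map eK

/-- retraction of letters -/
def retE (e : K.wedge.E) : Option K.E := Sum.getLeft? (e : K.E ⊕ (Bool × Bool))

/-- retraction of words: delete the letters x, y -/
def ret (p : List K.wedge.E) : List K.E := p.filterMap retE

@[simp] theorem retE_eK (e : K.E) : retE (eK e) = some e := rfl
@[simp] theorem retE_eA (a : Bool × Bool) : retE (K := K) (eA a) = none := rfl
@[simp] theorem ret_nil : ret (K := K) [] = [] := rfl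
@[simp] theorem ret_eK (e : K.E) (p : List K.wedge.E) : ret (eK e :: p) = e :: ret p := rfl
@[simp] theorem ret_eA (a : Bool × Bool) (p : List K.wedge.E) : ret (eA a :: p) = ret p := rfl
theorem ret_append (p q : List K.wedge.E) : ret (p ++ q) = ret p ++ ret q :=
  List.filterMap_append
theorem inc_append (p q : List K.E) : inc (p ++ q) = inc p ++ inc q :=
  List.map_append
@[simp] theorem inc_nil : inc (K := K) [] = [] := rfl
@[simp] theorem inc_cons (e : K.E) (p : List K.E) : inc (e :: p) = eK e :: inc p := rfl
theorem ret_inc (p : List K.E) : ret (inc p) = p := by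
  induction p with
  | nil => rfl
  | cons e p ih => rw [inc_cons, ret_eK, ih]

theorem isPath_inc {u v : K.V} {p : List K.E} :
    K.wedge.IsPath u (inc p) v ↔ K.IsPath u p v := by
  induction p generalizing u with
  | nil => exact isPath_nil.trans isPath_nil.symm
  | cons e p ih =>
    rw [inc_cons]
    refine isPath_cons.trans (Iff.trans ?_ isPath_cons.symm)
    exact and_congr Iff.rfl ih

theorem isPath_ret {u v : K.V} {p : List K.wedge.E} (h : K.wedge.IsPath u p v) :
    K.IsPath u (ret p) v := by
  induction p generalizing u with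
  | nil =>
    have h' : u = v := (isPath_nil (U := K.wedge.toCellComplex)).1 h
    exact isPath_nil.2 h'
  | cons e p ih =>
    obtain ⟨h1, h2⟩ := isPath_cons.1 h
    rcases edge_cases e with ⟨e, rfl⟩ | ⟨a, rfl⟩
    · exact isPath_cons.2 ⟨h1, ih h2⟩
    · have h3 : K.base = u := h1
      subst h3
      exact ih h2

theorem bdPath_fK (f : K.F) (n : ℕ) : K.wedge.bdPath (fK f) n = inc (K.bdPath f n) := by
  unfold bdPath inc
  rw [List.map_map]
  rfl

theorem bdPath_fA (b : Bool) (n : ℕ) :
    ∃ w : List (Bool × Bool), K.wedge.bdPath (fA b) n = w.map eA := by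
  refine ⟨(List.range n).map fun j : ℕ => abBd b j, ?_⟩
  unfold bdPath
  rw [List.map_map]
  rfl

theorem bdPath_false : K.wedge.bdPath (fA false) 1 = [eA (false, true)] := rfl

theorem bdPath_true : K.wedge.bdPath (fA true) 5 =
    [eA (true, true), eA (true, true), eA (false, true), eA (true, false),
      eA (false, true)] := rfl

theorem ret_map_eA (w : List (Bool × Bool)) : ret (K := K) (w.map eA) = [] := by
  induction w with
  | nil => rfl
  | cons a w ih => rw [List.map_cons, ret_eA, ih]

theorem Homotopic.ret {p q : List K.wedge.E} (h : K.wedge.Homotopic p q) :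
    K.Homotopic (ret p) (ret q) := by
  induction h with
  | refl => exact .refl _
  | symm _ ih => exact .symm ih
  | trans _ _ ih1 ih2 => exact .trans ih1 ih2
  | backtrack p q e hp =>
    rcases edge_cases e with ⟨e, rfl⟩ | ⟨a, rfl⟩
    · have := Homotopic.backtrack (TwoComplex.ret p) (TwoComplex.ret q) e (isPath_ret hp)
      simpa [ret_append] using this
    · simp only [ret_append, rev_eA, ret_eA]
      exact .refl _
  | face p q f hp =>
    rcases face_cases f with ⟨f, rfl⟩ | ⟨b, rfl⟩
    · have := Homotopic.face (TwoComplex.ret p) (TwoComplex.ret q) f (isPath_ret hp)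
      simpa [ret_append, bdPath_fK, ret_inc] using this
    · obtain ⟨w, hw⟩ := bdPath_fA (K := K) b (K.wedge.len (fA b))
      rw [hw]
      simp only [ret_append, ret_map_eA, List.nil_append]
      exact .refl _

theorem Homotopic.inc {p q : List K.E} (h : K.Homotopic p q) :
    K.wedge.Homotopic (inc p) (inc q) := by
  induction h with
  | refl => exact .refl _
  | symm _ ih => exact .symm ih
  | trans _ _ ih1 ih2 => exact .trans ih1 ih2
  | backtrack p q e hp =>
    have := Homotopic.backtrack (X := K.wedge) (TwoComplex.inc p) (TwoComplex.inc q) (eK e)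
      (isPath_inc.2 hp)
    simpa [inc_append] using this
  | face p q f hp =>
    have := Homotopic.face (X := K.wedge) (TwoComplex.inc p) (TwoComplex.inc q) (fK f)
      (isPath_inc.2 hp)
    simpa [inc_append, bdPath_fK] using this

theorem homotopic_x (p q : List K.wedge.E) (hp : K.wedge.IsPath K.base p K.base) :
    K.wedge.Homotopic (p ++ (eA (false, true) :: q)) (p ++ q) := by
  have := Homotopic.face (X := K.wedge) p q (fA false) hp
  rw [len_fA, Bool.cond_false, bdPath_false] at this
  exact this

theorem isPath_concat {p : List K.wedge.E} (hp : K.wedge.IsPath K.base p K.base)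
    (a : Bool × Bool) : K.wedge.IsPath K.base (p ++ [eA a]) K.base :=
  isPath_append hp (isPath_single (U := K.wedge.toCellComplex) (e := eA a))

theorem homotopic_x' (p q : List K.wedge.E) (hp : K.wedge.IsPath K.base p K.base) :
    K.wedge.Homotopic (p ++ (eA (false, false) :: q)) (p ++ q) := by
  have h1 := homotopic_x (p ++ [eA (false, false)]) q (isPath_concat hp _)
  have h2 := Homotopic.backtrack (X := K.wedge) p q (eA (false, false)) hp
  simp only [List.append_assoc, List.cons_append, List.nil_append] at h1
  exact .trans h1.symm h2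

theorem homotopic_y (p q : List K.wedge.E) (hp : K.wedge.IsPath K.base p K.base) :
    K.wedge.Homotopic (p ++ (eA (true, true) :: q)) (p ++ q) := by
  -- p q ~ p y y x y⁻¹ x q ~ p y y y⁻¹ q ~ p y q
  have h1 := Homotopic.face (X := K.wedge) p q (fA true) hp
  rw [len_fA, Bool.cond_true, bdPath_true] at h1
  have h2 := homotopic_x ((p ++ [eA (true, true)]) ++ [eA (true, true)])
    (eA (true, false) :: eA (false, true) :: q)
    (isPath_concat (isPath_concat hp _) _)
  have h3 := homotopic_x
    (((p ++ [eA (true, true)]) ++ [eA (true, true)]) ++ [eA (true, false)]) q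
    (isPath_concat (isPath_concat (isPath_concat hp _) _) _)
  have h4 := Homotopic.backtrack (X := K.wedge) (p ++ [eA (true, true)]) q
    (eA (true, true)) (isPath_concat hp _)
  simp only [List.append_assoc, List.cons_append, List.nil_append] at h1 h2 h3 h4
  exact .symm (.trans (.symm h1) (.trans h2 (.trans h3 h4)))

theorem homotopic_y' (p q : List K.wedge.E) (hp : K.wedge.IsPath K.base p K.base) :
    K.wedge.Homotopic (p ++ (eA (true, false) :: q)) (p ++ q) := by
  have h1 := homotopic_y (p ++ [eA (true, false)]) q (isPath_concat hp _)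
  have h2 := Homotopic.backtrack (X := K.wedge) p q (eA (true, false)) hp
  simp only [List.append_assoc, List.cons_append, List.nil_append] at h1
  exact .trans h1.symm h2

theorem homotopic_eA (p q : List K.wedge.E) (a : Bool × Bool)
    (hp : K.wedge.IsPath K.base p K.base) :
    K.wedge.Homotopic (p ++ (eA a :: q)) (p ++ q) := by
  rcases a with ⟨_ | _, _ | _⟩
  · exact homotopic_x' p q hp
  · exact homotopic_x p q hp
  · exact homotopic_y' p q hp
  · exact homotopic_y p q hp

theorem homotopic_inc_ret (p q : List K.wedge.E) {w v : K.V}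
    (hp : K.wedge.IsPath K.base p w) (hq : K.wedge.IsPath w q v) :
    K.wedge.Homotopic (p ++ q) (p ++ inc (ret q)) := by
  induction q generalizing p w with
  | nil => exact .refl _
  | cons e q ih =>
    obtain ⟨h0, hq'⟩ := isPath_cons.1 hq
    subst h0
    rcases edge_cases e with ⟨e, rfl⟩ | ⟨a, rfl⟩
    · have := ih (p ++ [eK e]) (isPath_append hp isPath_single) hq'
      simpa using this
    · have h2 := homotopic_eA p q a hp
      have h3 := ih p hp hq'
      rw [ret_eA]
      exact .trans h2 h3

/-! ### path classes -/

/-- the inclusion of path classes -/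
def incC (γ : K.PathClass) : K.wedge.PathClass :=
  Quot.map inc (fun _ _ h => Homotopic.inc h) γ

/-- the retraction of path classes -/
def retC (γ : K.wedge.PathClass) : K.PathClass :=
  Quot.map ret (fun _ _ h => Homotopic.ret h) γ

@[simp] theorem incC_mk (p : List K.E) : incC (PathClass.mk p) = PathClass.mk (inc p) := rfl
@[simp] theorem retC_mk (p : List K.wedge.E) :
    retC (PathClass.mk p) = PathClass.mk (ret p) := rfl

theorem retC_incC (γ : K.PathClass) : retC (incC γ) = γ := by
  induction γ using PathClass.ind with
  | h p => simp [ret_inc]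

theorem incC_retC {γ : K.wedge.PathClass} {v : K.V} (h : γ.IsTo v) : incC (retC γ) = γ := by
  induction γ using PathClass.ind with
  | h p =>
    simp only [retC_mk, incC_mk]
    rw [PathClass.mk_eq_mk]
    exact (homotopic_inc_ret [] p (isPath_nil.2 rfl) (PathClass.isTo_mk.1 h)).symm

theorem incC_isTo {γ : K.PathClass} {v : K.V} : (incC γ).IsTo v ↔ γ.IsTo v := by
  induction γ using PathClass.ind with
  | h p =>
    exact (PathClass.isTo_mk (X := K.wedge)).trans (isPath_inc.trans PathClass.isTo_mk.symm)

theorem retC_isTo {γ : K.wedge.PathClass} {v : K.V} (h : γ.IsTo v) : (retC γ).IsTo v := by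
  induction γ using PathClass.ind with
  | h p => exact PathClass.isTo_mk.2 (isPath_ret (PathClass.isTo_mk.1 h))

theorem incC_append (γ : K.PathClass) (w : List K.E) :
    (incC γ).append (inc w) = incC (γ.append w) := by
  induction γ using PathClass.ind with
  | h p => simp [inc_append]

theorem incC_injective : Function.Injective (incC (K := K)) :=
  Function.LeftInverse.injective retC_incC

/-- a word in `x`, `y` acts trivially on the classes ending at the base vertex -/
theorem append_eA {γ : K.wedge.PathClass} (h : γ.IsTo K.base) (w : List (Bool × Bool)) :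
    γ.append (w.map eA) = γ := by
  induction γ using PathClass.ind with
  | h p =>
    induction w with
    | nil => simp
    | cons a w ih =>
      refine Eq.trans ?_ ih
      simp only [PathClass.append_mk]
      rw [PathClass.mk_eq_mk]
      exact homotopic_eA p (w.map eA) a (PathClass.isTo_mk.1 h)

theorem append_single_eA {γ : K.wedge.PathClass} (h : γ.IsTo K.base) (a : Bool × Bool) :
    γ.append [eA a] = γ := append_eA h [a]

/-- the fundamental groups agree -/
def fundGroupEquiv (K : TwoComplex) : K.wedge.FundGroup ≃* K.FundGroup where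
  toFun := Quot.map (fun p => ⟨ret p.1, isPath_ret p.2⟩) (fun _ _ h => Homotopic.ret h)
  invFun := Quot.map (fun p => ⟨inc p.1, isPath_inc.2 p.2⟩) (fun _ _ h => Homotopic.inc h)
  left_inv := by
    intro a
    induction a using Quot.ind with
    | _ a => exact Quot.sound (homotopic_inc_ret [] a.1 (isPath_nil.2 rfl) a.2).symm
  right_inv := by
    intro a
    induction a using Quot.ind with
    | _ a =>
      apply Quot.sound
      change K.Homotopic (ret (inc a.1)) a.1
      rw [ret_inc]
      exact .refl _
  map_mul' := by
    intro a b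
    induction a using Quot.ind with
    | _ a =>
      induction b using Quot.ind with
      | _ b =>
        apply Quot.sound
        change K.Homotopic (ret (a.1 ++ b.1)) (ret a.1 ++ ret b.1)
        rw [ret_append]
        exact .refl _

/-! ### the universal cover of the wedge -/

/-- the 2-cells of the universal cover of `K` inside those of the wedge -/
def incF (q : K.CoverFace) : K.wedge.CoverFace :=
  ⟨incC q.cls, fK q.face, incC_isTo.2 q.isTo⟩

/-- the edges of the universal cover of `K` inside those of the wedge -/
def incE (q : K.CoverEdge) : K.wedge.CoverEdge :=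
  ⟨incC q.cls, eK q.edge, incC_isTo.2 q.isTo⟩

/-- the new 2-cells of the universal cover of the wedge -/
def newF (b : Bool) (γ : K.wedge.PathClass) (h : γ.IsTo K.base) : K.wedge.CoverFace :=
  ⟨γ, fA b, h⟩

/-- the new edges of the universal cover of the wedge -/
def newE (a : Bool × Bool) (γ : K.wedge.PathClass) (h : γ.IsTo K.base) : K.wedge.CoverEdge :=
  ⟨γ, eA a, h⟩

theorem incF_injective : Function.Injective (incF (K := K)) := by
  intro q q' h
  exact CoverFace.ext (incC_injective (congrArg CoverFace.cls h))
    (fK_injective (congrArg CoverFace.face h))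

theorem incE_injective : Function.Injective (incE (K := K)) := by
  intro q q' h
  exact CoverEdge.ext (incC_injective (congrArg CoverEdge.cls h))
    (eK_injective (congrArg CoverEdge.edge h))

theorem coverF_cases (q : K.wedge.CoverFace) :
    (∃ q', q = incF q') ∨ ∃ b γ, ∃ h : γ.IsTo K.base, q = newF b γ h := by
  obtain ⟨γ, f, h⟩ := q
  rcases face_cases f with ⟨f, rfl⟩ | ⟨b, rfl⟩
  · left
    exact ⟨⟨retC γ, f, retC_isTo h⟩, CoverFace.ext (incC_retC h).symm rfl⟩
  · right
    exact ⟨b, γ, h, rfl⟩

theorem coverE_cases (q : K.wedge.CoverEdge) :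
    (∃ q', q = incE q') ∨ ∃ a γ, ∃ h : γ.IsTo K.base, q = newE a γ h := by
  obtain ⟨γ, e, h⟩ := q
  rcases edge_cases e with ⟨e, rfl⟩ | ⟨a, rfl⟩
  · left
    exact ⟨⟨retC γ, e, retC_isTo h⟩, CoverEdge.ext (incC_retC h).symm rfl⟩
  · right
    exact ⟨a, γ, h, rfl⟩

theorem incF_ne_newF (q : K.CoverFace) (b : Bool) (γ : K.wedge.PathClass)
    (h : γ.IsTo K.base) : incF q ≠ newF b γ h := by
  intro h'
  exact fK_ne_fA _ _ (congrArg CoverFace.face h')

theorem incE_ne_newE (q : K.CoverEdge) (a : Bool × Bool) (γ : K.wedge.PathClass)
    (h : γ.IsTo K.base) : incE q ≠ newE a γ h := by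
  intro h'
  exact eK_ne_eA _ _ (congrArg CoverEdge.edge h')

theorem coverBd_incF (q : K.CoverFace) (i : ℤ) : coverBd (incF q) i = incE (coverBd q i) := by
  refine CoverEdge.ext ?_ rfl
  change (incC q.cls).append (K.wedge.bdPath (fK q.face) (i % K.len q.face).toNat) =
    incC (q.cls.append (K.bdPath q.face (i % K.len q.face).toNat))
  rw [bdPath_fK, incC_append]

theorem coverRev_incE (q : K.CoverEdge) : coverRev (incE q) = incE (coverRev q) :=
  CoverEdge.ext (incC_append q.cls [q.edge]) rfl

theorem coverBd_newF (b : Bool) (γ : K.wedge.PathClass) (h : γ.IsTo K.base) (i : ℤ) :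
    coverBd (newF b γ h) i = newE (abBd b i) γ h := by
  refine CoverEdge.ext ?_ rfl
  change γ.append (K.wedge.bdPath (fA b) (i % K.wedge.len (fA b)).toNat) = γ
  obtain ⟨w, hw⟩ := bdPath_fA (K := K) b (i % K.wedge.len (fA b)).toNat
  rw [hw]
  exact append_eA h w

theorem coverRev_newE (a : Bool × Bool) (γ : K.wedge.PathClass) (h : γ.IsTo K.base) :
    coverRev (newE a γ h) = newE (a.1, !a.2) γ h :=
  CoverEdge.ext (append_single_eA h a) rfl

theorem newE_inj {a a' : Bool × Bool} {γ γ' : K.wedge.PathClass} {h : γ.IsTo K.base}
    {h' : γ'.IsTo K.base} : newE a γ h = newE a' γ' h' ↔ a = a' ∧ γ = γ' := by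
  constructor
  · intro h1
    exact ⟨eA_injective (congrArg CoverEdge.edge h1), congrArg CoverEdge.cls h1⟩
  · rintro ⟨rfl, rfl⟩
    rfl

open Classical in
theorem incidence_cover (X : TwoComplex) (q : X.CoverFace) (e : X.CoverEdge) :
    X.universalCover.incidence q e = ∑ i ∈ Finset.range (X.len q.face),
      ((if coverBd q i = e then 1 else 0) - (if coverBd q i = coverRev e then 1 else 0)) := rfl

open Classical in
theorem incidence_incF_incE (q : K.CoverFace) (e : K.CoverEdge) :
    K.wedge.universalCover.incidence (incF q) (incE e) = K.universalCover.incidence q e := by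
  rw [incidence_cover, incidence_cover]
  refine Finset.sum_congr rfl fun i _ => ?_
  have h1 : (coverBd (incF q) i = incE e) ↔ (coverBd q i = e) := by
    rw [coverBd_incF, incE_injective.eq_iff]
  have h2 : (coverBd (incF q) i = coverRev (incE e)) ↔ (coverBd q i = coverRev e) := by
    rw [coverBd_incF, coverRev_incE, incE_injective.eq_iff]
  exact congrArg₂ (· - ·) (if_congr h1 rfl rfl) (if_congr h2 rfl rfl)

theorem incidence_incF_newE (q : K.CoverFace) (a : Bool × Bool) (γ : K.wedge.PathClass)
    (h : γ.IsTo K.base) : K.wedge.universalCover.incidence (incF q) (newE a γ h) = 0 := by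
  refine Finset.sum_eq_zero fun i _ => ?_
  have h1 : ¬ (coverBd (incF q) i = newE a γ h) := by
    rw [coverBd_incF]
    exact incE_ne_newE _ _ _ _
  have h2 : ¬ (coverBd (incF q) i = coverRev (newE a γ h)) := by
    rw [coverBd_incF, coverRev_newE]
    exact incE_ne_newE _ _ _ _
  exact congrArg₂ (· - ·) (if_neg h1) (if_neg h2)

theorem incidence_newF_incE (b : Bool) (γ : K.wedge.PathClass) (h : γ.IsTo K.base)
    (e : K.CoverEdge) : K.wedge.universalCover.incidence (newF b γ h) (incE e) = 0 := by
  refine Finset.sum_eq_zero fun i _ => ?_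
  have h1 : ¬ (coverBd (newF b γ h) i = incE e) := by
    rw [coverBd_newF]
    exact (incE_ne_newE _ _ _ _).symm
  have h2 : ¬ (coverBd (newF b γ h) i = coverRev (incE e)) := by
    rw [coverBd_newF, coverRev_incE]
    exact (incE_ne_newE _ _ _ _).symm
  exact congrArg₂ (· - ·) (if_neg h1) (if_neg h2)

theorem incidence_newF_newE_of_ne {b : Bool} {γ : K.wedge.PathClass} {h : γ.IsTo K.base}
    {a : Bool × Bool} {γ' : K.wedge.PathClass} {h' : γ'.IsTo K.base} (hne : γ ≠ γ') :
    K.wedge.universalCover.incidence (newF b γ h) (newE a γ' h') = 0 := by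
  refine Finset.sum_eq_zero fun i _ => ?_
  have h1 : ¬ (coverBd (newF b γ h) i = newE a γ' h') := by
    rw [coverBd_newF, newE_inj]
    exact fun h => hne h.2
  have h2 : ¬ (coverBd (newF b γ h) i = coverRev (newE a γ' h')) := by
    rw [coverBd_newF, coverRev_newE, newE_inj]
    exact fun h => hne h.2
  exact congrArg₂ (· - ·) (if_neg h1) (if_neg h2)

/-- the incidence numbers of the new cells -/
def abInc (b : Bool) (a : Bool × Bool) : ℤ :=
  ∑ i ∈ Finset.range (cond b 5 1), ((if abBd b i = a then 1 else 0) -
    (if abBd b i = (a.1, !a.2) then 1 else 0))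

theorem incidence_newF_newE (b : Bool) (a : Bool × Bool) (γ : K.wedge.PathClass)
    (h : γ.IsTo K.base) :
    K.wedge.universalCover.incidence (newF b γ h) (newE a γ h) = abInc b a := by
  classical
  rw [incidence_cover]
  refine Finset.sum_congr rfl fun i _ => ?_
  have h1 : (coverBd (newF b γ h) i = newE a γ h) ↔ abBd b i = a := by
    rw [coverBd_newF, newE_inj]
    exact and_iff_left rfl
  have h2 : (coverBd (newF b γ h) i = coverRev (newE a γ h)) ↔ abBd b i = (a.1, !a.2) := by
    rw [coverBd_newF, coverRev_newE, newE_inj]
    exact and_iff_left rfl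
  exact congrArg₂ (· - ·) (if_congr h1 rfl rfl) (if_congr h2 rfl rfl)

theorem incidence_true_y (γ : K.wedge.PathClass) (h : γ.IsTo K.base) :
    K.wedge.universalCover.incidence (newF true γ h) (newE (true, true) γ h) = 1 :=
  (incidence_newF_newE true (true, true) γ h).trans (by decide)

theorem incidence_false_y (γ : K.wedge.PathClass) (h : γ.IsTo K.base) :
    K.wedge.universalCover.incidence (newF false γ h) (newE (true, true) γ h) = 0 :=
  (incidence_newF_newE false (true, true) γ h).trans (by decide)

theorem incidence_false_x (γ : K.wedge.PathClass) (h : γ.IsTo K.base) :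
    K.wedge.universalCover.incidence (newF false γ h) (newE (false, true) γ h) = 1 :=
  (incidence_newF_newE false (false, true) γ h).trans (by decide)

variable {R : Type} [AddCommGroup R]

/-- boundary at the old edges -/
theorem boundary_incE (g : K.wedge.CoverFace → R) (e : K.CoverEdge) :
    K.wedge.universalCover.boundary g (incE e) =
      K.universalCover.boundary (fun q => g (incF q)) e := by
  unfold CellComplex.boundary
  have h3 : Function.support (fun f : K.wedge.CoverFace =>
      K.wedge.universalCover.incidence f (incE e) • g f) ⊆ Set.range (incF (K := K)) := by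
    intro q hq
    rcases coverF_cases q with ⟨q', rfl⟩ | ⟨b, γ, h, rfl⟩
    · exact ⟨q', rfl⟩
    · exfalso
      apply hq
      simp only [incidence_newF_incE, zero_smul]
  have h4 : (∑ᶠ f : K.wedge.CoverFace, K.wedge.universalCover.incidence f (incE e) • g f) =
      ∑ᶠ q : K.CoverFace, K.wedge.universalCover.incidence (incF q) (incE e) • g (incF q) := by
    rw [← finsum_mem_univ, ← finsum_mem_inter_support, Set.univ_inter,
      ← Set.inter_eq_right.2 h3, finsum_mem_inter_support, finsum_mem_range incF_injective]
  refine h4.trans ?_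
  apply finsum_congr
  intro q
  rw [incidence_incF_incE]

/-- boundary at the new edges -/
theorem boundary_newE_of_zero (g : K.wedge.CoverFace → R)
    (hg : ∀ b γ h, g (newF b γ h) = 0) (a : Bool × Bool) (γ : K.wedge.PathClass)
    (h : γ.IsTo K.base) :
    K.wedge.universalCover.boundary g (newE a γ h) = 0 := by
  unfold CellComplex.boundary
  apply finsum_eq_zero_of_forall_eq_zero
  intro q
  have hq : K.wedge.universalCover.incidence q (newE a γ h) • g q = 0 := by
    rcases coverF_cases q with ⟨q', rfl⟩ | ⟨b, γ, h, rfl⟩
    · rw [incidence_incF_newE, zero_smul]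
    · rw [hg, smul_zero]
  exact hq

/-- If `g` vanishes on the new faces, then it is a cycle iff its restriction is. -/
theorem cycle_iff (g : K.wedge.CoverFace → R) (hg : ∀ b γ h, g (newF b γ h) = 0) :
    (∀ e, K.wedge.universalCover.boundary g e = 0) ↔
      ∀ e, K.universalCover.boundary (fun q => g (incF q)) e = 0 := by
  constructor
  · intro h e
    exact (boundary_incE g e).symm.trans (h _)
  · intro h e
    rcases coverE_cases e with ⟨e, rfl⟩ | ⟨a, γ, hγ, rfl⟩
    · exact (boundary_incE g e).trans (h e)
    · exact boundary_newE_of_zero g hg a γ hγ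

/-- A cycle of the universal cover of the wedge vanishes on the new faces. -/
theorem cycle_newF (g : K.wedge.CoverFace → R)
    (hg : ∀ e, K.wedge.universalCover.boundary g e = 0) (b : Bool) (γ : K.wedge.PathClass)
    (h : γ.IsTo K.base) : g (newF b γ h) = 0 := by
  have hy : g (newF true γ h) = 0 := by
    have h1 := hg (newE (true, true) γ h)
    have h2 : K.wedge.universalCover.boundary g (newE (true, true) γ h) =
        K.wedge.universalCover.incidence (newF true γ h) (newE (true, true) γ h) •
          g (newF true γ h) := by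
      apply finsum_eq_single
      intro q hq
      rcases coverF_cases q with ⟨q', rfl⟩ | ⟨b, γ', h', rfl⟩
      · rw [incidence_incF_newE, zero_smul]
      · by_cases hγ : γ' = γ
        · subst hγ
          cases b
          · rw [incidence_false_y, zero_smul]
          · exact (hq rfl).elim
        · rw [incidence_newF_newE_of_ne hγ, zero_smul]
    rw [h2, incidence_true_y, one_smul] at h1
    exact h1
  have hx : g (newF false γ h) = 0 := by
    have h1 := hg (newE (false, true) γ h)
    have h2 : K.wedge.universalCover.boundary g (newE (false, true) γ h) =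
        K.wedge.universalCover.incidence (newF false γ h) (newE (false, true) γ h) •
          g (newF false γ h) := by
      apply finsum_eq_single
      intro q hq
      rcases coverF_cases q with ⟨q', rfl⟩ | ⟨b, γ', h', rfl⟩
      · rw [incidence_incF_newE, zero_smul]
      · by_cases hγ : γ' = γ
        · subst hγ
          cases b
          · exact (hq rfl).elim
          · rw [hy, smul_zero]
        · rw [incidence_newF_newE_of_ne hγ, zero_smul]
    rw [h2, incidence_false_x, one_smul] at h1
    exact h1
  cases b
  · exact hx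
  · exact hy

/-- The wedge is aspherical if `K` is. -/
theorem wedge_isAspherical (hK : K.IsAspherical) : K.wedge.IsAspherical := by
  intro c hc
  have h1 := cycle_newF c hc
  have h2 := (cycle_iff c h1).1 hc
  have h3 := hK (c.comapDomain incF incF_injective.injOn) h2
  ext q
  rcases coverF_cases q with ⟨q', rfl⟩ | ⟨b, γ, h, rfl⟩
  · have := DFunLike.congr_fun h3 q'
    simpa using this
  · simpa using h1 b γ h

theorem wedge_isCompact (hK : K.IsCompact) : K.wedge.IsCompact := by
  obtain ⟨h1, h2, h3⟩ := hK
  refine ⟨h1, ?_, ?_⟩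
  · change Finite (K.E ⊕ (Bool × Bool))
    infer_instance
  · change Finite (K.F ⊕ Bool)
    infer_instance

end TwoComplex

end Pool.Agent.Helper43.NPI
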